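import Pool.Agent.Mg.F06f5ada.G643a73

/-! Even degrees: algebraic lemmas. -/

namespace Pool.Agent.MP_06f5ad_nt.Ev

open Q2 Polynomial

/-- The order of discriminant `4 n`, embedded in the plane. -/
def ord (Q : QF) : Subring (ℝ × ℝ) where
  carrier := {p | ∃ u v : ℤ, p.1 = u + v * Q.r ∧ p.2 = u - v * Q.r}
  mul_mem' := by
    rintro p q ⟨u, v, h1, h2⟩ ⟨u', v', h3, h4⟩
    refine ⟨u * u' + Q.n * v * v', u * v' + v * u', ?_, ?_⟩
    · rw [Prod.fst_mul, h1, h3]; push_cast; rw [← Q.r_sq]; ring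
    · rw [Prod.snd_mul, h2, h4]; push_cast; rw [← Q.r_sq]; ring
  one_mem' := ⟨1, 0, by simp, by simp⟩
  add_mem' := by
    rintro p q ⟨u, v, h1, h2⟩ ⟨u', v', h3, h4⟩
    refine ⟨u + u', v + v', ?_, ?_⟩
    · rw [Prod.fst_add, h1, h3]; push_cast; ring
    · rw [Prod.snd_add, h2, h4]; push_cast; ring
  zero_mem' := ⟨0, 0, by simp, by simp⟩
  neg_mem' := by
    rintro p ⟨u, v, h1, h2⟩
    refine ⟨-u, -v, ?_, ?_⟩
    · rw [Prod.fst_neg, h1]; push_cast; ring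
    · rw [Prod.snd_neg, h2]; push_cast; ring

theorem ord_mono (Q : QF) (n : ℕ) : ∀ i ≤ n, ∀ j ≤ n,
    ((Q.A : ℝ × ℝ)) ^ n * ((Q.a, Q.b) ^ i * (Q.b, Q.a) ^ j) ∈ ord Q := by
  have h0 : (Q.A : ℝ × ℝ) ∈ ord Q := intCast_mem _ _
  have h1 : (Q.A : ℝ × ℝ) * (Q.a, Q.b) ∈ ord Q :=
    ⟨-Q.B, 1, by simp [← Q.r_a], by simp; linarith [Q.r_b]⟩
  have h2 : (Q.A : ℝ × ℝ) * (Q.b, Q.a) ∈ ord Q :=
    ⟨-Q.B, -1, by simp; linarith [Q.r_b], by simp [← Q.r_a]⟩
  have h3 : (Q.A : ℝ × ℝ) * ((Q.a, Q.b) * (Q.b, Q.a)) ∈ ord Q :=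
    ⟨Q.C, 0, by simp [Q.prod], by simp [← Q.prod, mul_comm]⟩
  induction n with
  | zero => intro i hi j hj; simp [Nat.le_zero.1 hi, Nat.le_zero.1 hj]
  | succ n ih =>
    intro i hi j hj
    rcases i with _ | i <;> rcases j with _ | j
    · convert mul_mem (ih 0 (by omega) 0 (by omega)) h0 using 1; ring
    · convert mul_mem (ih 0 (by omega) j (by omega)) h2 using 1; ring
    · convert mul_mem (ih i (by omega) 0 (by omega)) h1 using 1; ring
    · convert mul_mem (ih i (by omega) j (by omega)) h3 using 1; ring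

theorem ord_ev (Q : QF) {F G : ℤ[X]} {n : ℕ} (hF : F.natDegree ≤ n) (hG : G.natDegree ≤ n) :
    ∃ u v : ℤ, (Q.A : ℝ) ^ n * (aeval Q.a F * aeval Q.b G) = u + v * Q.r ∧
      (Q.A : ℝ) ^ n * (aeval Q.b F * aeval Q.a G) = u - v * Q.r := by
  have : ((Q.A : ℝ × ℝ)) ^ n * (aeval (Q.a, Q.b) F * aeval (Q.b, Q.a) G) ∈ ord Q := by
    rw [aeval_eq_sum_range' (Nat.lt_succ_of_le hF), aeval_eq_sum_range' (Nat.lt_succ_of_le hG),
      Finset.sum_mul_sum, Finset.mul_sum]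
    refine sum_mem fun i hi => ?_
    rw [Finset.mul_sum]
    refine sum_mem fun j hj => ?_
    convert zsmul_mem (zsmul_mem (ord_mono Q n i (Nat.lt_succ_iff.1 (Finset.mem_range.1 hi)) j
      (Nat.lt_succ_iff.1 (Finset.mem_range.1 hj))) (F.coeff i)) (G.coeff j) using 1
    simp only [zsmul_eq_mul]
    ring
  obtain ⟨u, v, h1, h2⟩ := this
  exact ⟨u, v, by simpa [aeval_prod_apply] using h1, by simpa [aeval_prod_apply] using h2⟩

theorem dd_pow {x u v : ℝ} (hx : |x| ≤ 1) (hu : |u| ≤ 1) (hv : |v| ≤ 1) (i : ℕ) :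
    ∃ p q : ℝ, u ^ i - x ^ i = (u - x) * p ∧ v ^ i - x ^ i = (v - x) * q ∧ |p| ≤ i ∧ |q| ≤ i ∧
      |p - q| ≤ i ^ 2 * |u - v| := by
  induction i with
  | zero => exact ⟨0, 0, by simp⟩
  | succ i ih =>
    obtain ⟨p, q, h1, h2, h3, h4, h5⟩ := ih
    have hi : |x ^ i| ≤ 1 := by rw [abs_pow]; exact pow_le_one₀ (abs_nonneg _) hx
    have k : ∀ y z : ℝ, |y| ≤ 1 → |z| ≤ i → |y * z + x ^ i| ≤ (i + 1 : ℕ) := fun y z hy hz => by
      have := abs_add_le (y * z) (x ^ i)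
      rw [abs_mul] at this
      push_cast
      nlinarith [abs_nonneg y, abs_nonneg z]
    refine ⟨u * p + x ^ i, v * q + x ^ i, by linear_combination u * h1,
      by linear_combination v * h2, k u p hu h3, k v q hv h4, ?_⟩
    have e : u * p + x ^ i - (v * q + x ^ i) = u * (p - q) + (u - v) * q := by ring
    have := abs_add_le (u * (p - q)) ((u - v) * q)
    rw [abs_mul, abs_mul] at this
    rw [e]
    push_cast
    have a1 := mul_le_mul hu h5 (abs_nonneg _) zero_le_one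
    have a2 := mul_le_mul_of_nonneg_left h4 (abs_nonneg (u - v))
    have a3 : (0 : ℝ) ≤ i * |u - v| := by positivity
    nlinarith [abs_nonneg (u - v)]

theorem dd {R : ℤ[X]} {n : ℕ} (hR : R.natDegree ≤ n) {x u v : ℝ} (hx : |x| ≤ 1) (hu : |u| ≤ 1)
    (hv : |v| ≤ 1) (h0 : aeval x R = 0) : ∃ p q : ℝ, aeval u R = (u - x) * p ∧
      aeval v R = (v - x) * q ∧ |p| ≤ (n + 1) ^ 3 * R.supNorm ∧ |q| ≤ (n + 1) ^ 3 * R.supNorm ∧
      |p - q| ≤ (n + 1) ^ 3 * R.supNorm * |u - v| := by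
  choose p q h1 h2 h3 h4 h5 using dd_pow hx hu hv
  have hn : (0 : ℝ) ≤ n := Nat.cast_nonneg n
  have e : ∀ y : ℝ, aeval y R = ∑ i ∈ Finset.range (n + 1), (R.coeff i : ℝ) * (y ^ i - x ^ i) :=
    fun y => by
      rw [← sub_zero (aeval y R), ← h0, aeval_eq_sum_range' (Nat.lt_succ_of_le hR),
        aeval_eq_sum_range' (Nat.lt_succ_of_le hR), ← Finset.sum_sub_distrib]
      exact Finset.sum_congr rfl fun i _ => by simp only [zsmul_eq_mul]; ring
  have b : ∀ (f : ℕ → ℝ) (c : ℝ), 0 ≤ c → (∀ i ≤ n, |f i| ≤ (n + 1) ^ 2 * c) →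
      |∑ i ∈ Finset.range (n + 1), (R.coeff i : ℝ) * f i| ≤ (n + 1) ^ 3 * R.supNorm * c :=
    fun f c hc hf => by
      refine (Finset.abs_sum_le_sum_abs _ _).trans ((Finset.sum_le_card_nsmul _ _
        (R.supNorm * ((n + 1) ^ 2 * c)) fun i hi => ?_).trans_eq (by simp; ring))
      rw [abs_mul]
      exact mul_le_mul (Final_coeff R i) (hf i (Nat.lt_succ_iff.1 (Finset.mem_range.1 hi)))
        (abs_nonneg _) ((abs_nonneg _).trans (Final_coeff R i))
  have c : ∀ i ≤ n, (i : ℝ) ≤ (n + 1) ^ 2 * 1 := fun i hi => by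
    have : (i : ℝ) ≤ n := by exact_mod_cast hi
    nlinarith
  refine ⟨∑ i ∈ Finset.range (n + 1), (R.coeff i : ℝ) * p i,
    ∑ i ∈ Finset.range (n + 1), (R.coeff i : ℝ) * q i, ?_, ?_,
    by simpa using b p 1 zero_le_one fun i hi => (h3 i).trans (c i hi),
    by simpa using b q 1 zero_le_one fun i hi => (h4 i).trans (c i hi), ?_⟩
  · rw [e, Finset.mul_sum]
    exact Finset.sum_congr rfl fun i _ => by rw [h1]; ring
  · rw [e, Finset.mul_sum]
    exact Finset.sum_congr rfl fun i _ => by rw [h2]; ring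
  · rw [← Finset.sum_sub_distrib]
    simp only [← mul_sub]
    refine b (fun i => p i - q i) _ (abs_nonneg _) fun i hi => (h5 i).trans ?_
    have : (i : ℝ) ≤ n := by exact_mod_cast hi
    gcongr
    linarith

/-- The quadratic as a polynomial. -/
noncomputable def pol (P : Tr) : ℤ[X] := C P.A * X ^ 2 + C (2 * P.B) * X + C P.C

theorem pol_ev (P : Tr) (x : ℝ) : aeval x (pol P) = P.ev x := by
  simp [pol, Tr.ev, map_ofNat]

theorem pol_deg (P : Tr) : (pol P).natDegree ≤ 2 := natDegree_quadratic_le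

theorem pol_ne (P : QF) : pol P.toTr ≠ 0 := fun h => by
  have := leadingCoeff_quadratic (b := 2 * P.B) (c := P.C) P.pos.ne'
  rw [← pol, h, leadingCoeff_zero] at this
  exact P.pos.ne this

theorem lead (Q : QF) {O : Tr} (hr : res Q.toTr O = 1) {S : ℤ[X]} (hS : S ≠ 0)
    (ha : aeval Q.a S = 0) (hb : aeval Q.b S = 0) : (Q.A : ℝ) ≤ |(S.coeff S.natDegree : ℝ)| := by
  have hp : (pol Q.toTr).IsPrimitive := isPrimitive_iff_isUnit_of_C_dvd.2 fun g hg => by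
    rw [C_dvd_iff_dvd_coeff] at hg
    obtain ⟨a, h2⟩ : g ∣ Q.A := by simpa [pol, coeff_X, coeff_C, -map_mul, -eq_intCast] using hg 2
    obtain ⟨b, h1⟩ : g ∣ 2 * Q.B := by simpa [pol, coeff_X, coeff_C, -map_mul, -eq_intCast] using hg 1
    obtain ⟨c, h0⟩ : g ∣ Q.C := by simpa [pol, coeff_X, coeff_C, -map_mul, -eq_intCast] using hg 0
    refine isUnit_of_dvd_one ⟨g * ((a * O.C - O.A * c) ^ 2 -
      (2 * a * O.B - O.A * b) * (b * O.C - 2 * O.B * c)), ?_⟩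
    rw [← hr, res, h2, h0]
    linear_combination (2 * O.A * O.B * g * c + 2 * O.B * O.C * g * a -
      O.A * O.C * (2 * Q.B + g * b)) * -h1
  have hd : pol Q.toTr ∣ S := by
    rw [IsPrimitive.Int.dvd_iff_map_cast_dvd_map_cast _ _ hp, ← map_dvd_map' (algebraMap ℚ ℝ),
      Polynomial.map_map, Polynomial.map_map, RingHom.ext_int ((algebraMap ℚ ℝ).comp _)
        (algebraMap ℤ ℝ)]
    have e : (pol Q.toTr).map (algebraMap ℤ ℝ) = C (Q.A : ℝ) * ((X - C Q.a) * (X - C Q.b)) :=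
      Polynomial.funext fun y => by rw [eval_map_algebraMap, pol_ev, Q.ev_eq]; simp [mul_assoc]
    rw [e, (isUnit_C.2 Q.Apos.ne'.isUnit).mul_left_dvd]
    refine (isCoprime_X_sub_C_of_isUnit_sub (sub_ne_zero.2 Q.a_ne_b).isUnit).mul_dvd ?_ ?_ <;>
      rwa [dvd_iff_isRoot, IsRoot, eval_map_algebraMap]
  have h1 := leadingCoeff_dvd_leadingCoeff hd
  rw [pol, leadingCoeff_quadratic Q.pos.ne'] at h1
  exact_mod_cast Int.le_of_dvd (abs_pos.2 (leadingCoeff_ne_zero.2 hS)) ((dvd_abs _ _).2 h1)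

theorem irr_ne {R : ℤ[X]} (hR : Irreducible R) (h3 : 3 ≤ R.natDegree) (P : QF) {x : ℝ}
    (hx : P.ev x = 0) : aeval x R ≠ 0 := by
  have inj : Function.Injective (Int.castRingHom ℚ) := Int.cast_injective
  have h1 := (IsPrimitive.Int.irreducible_iff_irreducible_map_cast
    (hR.isPrimitive (by omega))).1 hR
  have h2 := h1.coprime_iff_not_dvd.2 fun h : _ ∣ (pol P.toTr).map (Int.castRingHom ℚ) => by
    have := natDegree_le_of_dvd h ((Polynomial.map_ne_zero_iff inj).2 (pol_ne P))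
    rw [natDegree_map_eq_of_injective inj, natDegree_map_eq_of_injective inj] at this
    have := pol_deg P.toTr
    omega
  have h4 := aeval_ne_zero_of_isCoprime h2 x
  rw [← algebraMap_int_eq, aeval_map_algebraMap, aeval_map_algebraMap, pol_ev] at h4
  exact h4.resolve_right (not_not.2 hx)

end Pool.Agent.MP_06f5ad_nt.Ev
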