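import Pool.Agent.MP_06f5ad_nt.Ev.A

/-! Even degrees: two consecutive quadratics. -/

namespace Pool.Agent.MP_06f5ad_nt.Ev

open Q2 Polynomial Filter

/-- A lower bound with exponent four. -/
def Dio4 (r η : ℝ) : Prop := ∀ u v : ℤ, v ≠ 0 → η ≤ |u + v * r| * |(v : ℝ)| ^ 4

/-- The position of the next quadratic. -/
structure Near (η κ M : ℝ) (P Q : QF) : Prop where
  res1 : res P.toTr Q.toTr = 1
  big : M ≤ Q.A
  close : |P.a - Q.a| * M ≤ 1
  lo : κ / 2 ≤ |Q.a - Q.b|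
  hi : |Q.a - Q.b| ≤ 12 * κ
  dio : Dio4 Q.r η

/-- No number of degree `2 l` is close to `Q.a` in the range governed by `P`, `Q`. -/
def PairE (K : ℝ) (l : ℕ) (P Q : QF) : Prop :=
  ∀ (R : ℤ[X]) (x : ℝ), Irreducible R → R.natDegree = 2 * l → aeval x R = 0 →
    |x - Q.a| ≤ |P.a - Q.a| / 2 → K < |x - Q.a| * R.supNorm ^ (2 * l + 1)

theorem core1 {K C w t D Z η X X' V : ℝ} {l : ℕ} (hl : 2 ≤ l) (hw : 1 ≤ w) (hC : 0 < C)
    (hZ : 0 < Z) (hD : 0 ≤ D) (hX : 0 ≤ X) (hV : 1 ≤ V) (ht : 1 ≤ D * t)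
    (h1 : X * t ^ (2 * l) ≤ K * C * w ^ l) (h2 : X' * w ^ l ≤ 2 * C * t * Z) (h3 : V * Z ≤ X + X')
    (h4 : η ≤ X * V ^ 4) (h5 : D ^ (2 * l) * (K * C * w ^ l) ≤ Z / 2)
    (h6 : (4 * C) ^ (2 * l) * (K * C) < η * w) : False := by
  have hw' : 0 < w ^ l := by positivity
  have a1 : X ≤ Z / 2 := calc
    X ≤ X * (D * t) ^ (2 * l) := le_mul_of_one_le_right hX (one_le_pow₀ ht)
    _ = D ^ (2 * l) * (X * t ^ (2 * l)) := by rw [mul_pow]; ring
    _ ≤ Z / 2 := (mul_le_mul_of_nonneg_left h1 (by positivity)).trans h5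
  have a2 : V * Z / 2 ≤ X' := by nlinarith
  have a3 : V * w ^ l ≤ 4 * C * t := by
    refine le_of_mul_le_mul_right ?_ hZ
    nlinarith [mul_le_mul_of_nonneg_right a2 hw'.le]
  have a4 : V ^ 4 * (w * w ^ l) ≤ (V * w ^ l) ^ (2 * l) := by
    rw [mul_pow, ← pow_mul, ← pow_succ']
    exact mul_le_mul (pow_le_pow_right₀ hV (by omega)) (pow_le_pow_right₀ hw (by nlinarith))
      (by positivity) (by positivity)
  have a5 : η * w * w ^ l ≤ (4 * C) ^ (2 * l) * (K * C) * w ^ l := calc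
    η * w * w ^ l = η * (w * w ^ l) := by ring
    _ ≤ X * V ^ 4 * (w * w ^ l) := mul_le_mul_of_nonneg_right h4 (by positivity)
    _ = X * (V ^ 4 * (w * w ^ l)) := by ring
    _ ≤ X * (4 * C * t) ^ (2 * l) := mul_le_mul_of_nonneg_left
      (a4.trans (pow_le_pow_left₀ (by positivity) a3 _)) hX
    _ = (4 * C) ^ (2 * l) * (X * t ^ (2 * l)) := by rw [mul_pow]; ring
    _ ≤ (4 * C) ^ (2 * l) * (K * C * w ^ l) := mul_le_mul_of_nonneg_left h1 (by positivity)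
    _ = _ := by ring
  exact (le_of_mul_le_mul_right a5 hw').not_gt h6

theorem core0 {G E t D A h X : ℝ} {n : ℕ} (hD : 0 < D) (hA : 0 < A) (hX : 1 ≤ X) (hG : 0 ≤ G)
    (hh : 0 ≤ h) (ht : 1 ≤ D * t) (h1 : X * t ^ (n + 1) ≤ G * X + E * t) (h2 : A ≤ t * A + X * h)
    (h3 : 2 * G * D ^ (n + 1) ≤ 1) (h4 : 2 ^ (n + 1) * E < 1) (h5 : 2 * h * D ^ n ≤ A) :
    False := by
  have t0 : 0 < t := pos_of_mul_pos_left (a := t) (b := D) (by linarith) hD.le
  have a1 : 2 * G ≤ t ^ (n + 1) := calc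
    2 * G ≤ 2 * G * (D * t) ^ (n + 1) := le_mul_of_one_le_right (by positivity) (one_le_pow₀ ht)
    _ = 2 * G * D ^ (n + 1) * t ^ (n + 1) := by rw [mul_pow]; ring
    _ ≤ t ^ (n + 1) := mul_le_of_le_one_left (by positivity) h3
  have a2 : X * t ^ n ≤ 2 * E := by
    refine le_of_mul_le_mul_right ?_ t0
    have := mul_le_mul_of_nonneg_left a1 (by linarith : 0 ≤ X)
    rw [pow_succ] at h1 this
    linarith
  have a3 : (2 : ℝ) ^ n * (X * t ^ n) < 1 :=
    (mul_le_mul_of_nonneg_left a2 (by positivity)).trans_lt (by rw [pow_succ] at h4; linarith)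
  rcases le_total 1 (2 * t) with h6 | h6
  · have := one_le_mul_of_one_le_of_one_le hX (one_le_pow₀ h6 (n := n))
    rw [mul_pow] at this
    linarith
  · have a4 : X * t ^ n < 1 :=
      (le_mul_of_one_le_left (by positivity) (one_le_pow₀ one_le_two)).trans_lt a3
    have a5 : A ≤ 2 * h * X := by nlinarith
    have a6 : 2 * h * X ≤ A * (X * t ^ n) := calc
      2 * h * X ≤ 2 * h * X * (D * t) ^ n :=
        le_mul_of_one_le_right (by positivity) (one_le_pow₀ ht)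
      _ = 2 * h * D ^ n * (X * t ^ n) := by rw [mul_pow]; ring
      _ ≤ _ := mul_le_mul_of_nonneg_right h5 (by positivity)
    nlinarith

theorem pair_core {η K C w₁ : ℝ} {l : ℕ} (hl : 2 ≤ l) (hK : 0 ≤ K) (hC : C = (2 * l + 1) ^ 3)
    {P Q : QF} (hr : res P.toTr Q.toTr = 1) (hd : Dio4 Q.r η) (pa : |P.a| ≤ 1 / 2) (pb : |P.b| ≤ 1)
    (qa : |Q.a| ≤ 1 / 2) (qb : |Q.b| ≤ 1) (he : |P.a - Q.a| ≤ |Q.a - Q.b|)
    (hz : 1 ≤ P.A * |Q.a - P.b|) (w0 : 1 ≤ |P.ev Q.b|) (w1 : |P.ev Q.b| ≤ w₁)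
    (c1 : (4 * C) ^ (2 * l) * (K * C) < η * |P.ev Q.b|)
    (c2 : 2 ^ (2 * l + 1) * (K * w₁ ^ l * C * |Q.a - Q.b|) < 1)
    (c3 : (2 * C * P.A ^ (2 * l)) ^ (2 * l) * (K * C * w₁ ^ l) ≤ Q.A * |Q.a - Q.b| / 2)
    (c4 : 4 * K * w₁ ^ l * w₁ ^ l * (2 * C * P.A ^ (2 * l)) ^ (2 * l + 1) ≤ Q.A * |Q.a - Q.b|)
    (c5 : 2 * (pol P.toTr ^ l).supNorm * (2 * C * P.A ^ (2 * l)) ^ (2 * l) ≤ Q.A) :
    PairE K l P Q := by
  intro R x hR hn hx hδ
  by_contra hc
  push Not at hc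
  have ne := fun (S : QF) (y : ℝ) => irr_ne hR (by omega) S (x := y)
  have n1 := ne P P.a (by rw [P.ev_eq]; ring)
  have n2 := ne P P.b (by rw [P.ev_eq]; ring)
  have n3 := ne Q Q.a (by rw [Q.ev_eq]; ring)
  have hA := P.Apos
  have hA' := Q.Apos
  have C0 : 0 < C := by rw [hC]; positivity
  have H0 : 0 ≤ R.supNorm := (abs_nonneg _).trans (Final_coeff R 0)
  have e1 : |P.a - Q.a| ≤ 1 := (abs_sub _ _).trans (by linarith)
  have x1 : |x| ≤ 1 := by
    have := abs_add_le (x - Q.a) Q.a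
    rw [sub_add_cancel] at this
    linarith
  have rr : (Q.A : ℝ) ^ 2 * |P.ev Q.a| * |P.ev Q.b| = 1 := by
    have := congrArg abs (Q.res_eq P.toTr)
    rw [res_symm, hr, abs_mul, abs_mul, abs_mul, abs_of_pos hA'] at this
    simp only [Int.cast_one, abs_one] at this
    linarith
  obtain ⟨p0, q0, a1, a2, a3, a4, -⟩ := dd hn.le x1 (by linarith : |P.a| ≤ 1) pb hx
  obtain ⟨p, q, b1, b2, b3, b4, b5⟩ := dd hn.le x1 (by linarith : |Q.a| ≤ 1) qb hx
  push_cast at a3 a4 b3 b4 b5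
  rw [← hC] at a3 a4 b3 b4 b5
  obtain ⟨u, v, hu, hv⟩ := ord_ev Q hn.le (G := pol P.toTr ^ l)
    (natDegree_pow_le.trans ((Nat.mul_le_mul_left l (pol_deg _)).trans_eq (mul_comm _ _)))
  rw [map_pow, pol_ev] at hu hv
  set H := R.supNorm
  set w := |P.ev Q.b|
  set z := |Q.a - Q.b|
  set δ := |x - Q.a|
  set D := 2 * C * (P.A : ℝ) ^ (2 * l) with hD
  have z0 : 0 < z := abs_pos.2 (sub_ne_zero.2 Q.a_ne_b)
  have δ0 : 0 ≤ δ := abs_nonneg _
  have D0 : 0 < D := by positivity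
  have wl : w ^ l ≤ w₁ ^ l := pow_le_pow_left₀ (by linarith) w1 l
  have wl0 : 0 < w ^ l := by positivity
  have hH : (Q.A : ℝ) ≤ D * H := by
    have h1 := Transc_norm P R n1 n2
    have h2 : (Q.A : ℝ) ^ 2 * |P.a - Q.a| ≤ 1 := by
      rw [P.ev_eq Q.a, abs_mul, abs_mul, abs_of_pos hA, abs_sub_comm Q.a P.a] at rr
      have h3 : 0 ≤ (Q.A : ℝ) ^ 2 * |P.a - Q.a| := by positivity
      exact (le_mul_of_one_le_right h3 (one_le_mul_of_one_le_of_one_le hz w0)).trans_eq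
        (by rw [← rr]; ring)
    have h3 : |P.a - x| ≤ 2 * |P.a - Q.a| := by
      have := abs_sub_le P.a Q.a x
      rw [abs_sub_comm Q.a x] at this
      linarith [abs_nonneg (P.a - Q.a)]
    have h4 : |P.b - x| ≤ 2 := (abs_sub _ _).trans (by linarith)
    have h5 : |aeval P.a R| * |aeval P.b R| ≤ 2 * |P.a - Q.a| * (C * H) * (2 * (C * H)) := by
      rw [a1, a2, abs_mul, abs_mul]
      gcongr
    refine abs_le_of_sq_le_sq' ?_ (by positivity) |>.2
    calc (Q.A : ℝ) ^ 2 ≤ (Q.A : ℝ) ^ 2 * ((P.A : ℝ) ^ (2 * (2 * l)) *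
          (2 * |P.a - Q.a| * (C * H) * (2 * (C * H)))) :=
          le_mul_of_one_le_right (by positivity) (h1.trans (by rw [hn]; gcongr))
      _ = (Q.A : ℝ) ^ 2 * |P.a - Q.a| * (D * H) ^ 2 := by rw [hD]; ring
      _ ≤ _ := mul_le_of_le_one_left (by positivity) h2
  obtain ⟨t, ht⟩ : ∃ t, H = t * Q.A := ⟨H / Q.A, by field_simp⟩
  have t1 : 1 ≤ D * t := le_of_mul_le_mul_right (by rw [ht] at hH; linarith) hA'
  have t0 : 0 < t := pos_of_mul_pos_left (a := t) (b := D) (by linarith) D0.le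
  have X1 : |u + v * Q.r| = Q.A ^ (2 * l) * (δ * |p| * w ^ l) := by
    rw [← hu, b1, abs_mul, abs_mul, abs_mul, abs_pow, abs_pow, abs_of_pos hA', abs_sub_comm]
  have X2 : |u - v * Q.r| * w ^ l = |Q.b - x| * |q| := by
    rw [← hv, b2, abs_mul, abs_mul, abs_mul, abs_pow, abs_pow, abs_of_pos hA', pow_mul]
    calc _ = |Q.b - x| * |q| * ((Q.A : ℝ) ^ 2 * |P.ev Q.a| * w) ^ l := by
          rw [mul_pow, mul_pow]; ring
      _ = _ := by rw [rr, one_pow, mul_one]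
  have y1 : z / 2 ≤ |Q.b - x| := by
    have := abs_sub_le Q.a x Q.b
    rw [abs_sub_comm Q.a x, abs_sub_comm x Q.b] at this
    linarith
  have y2 : |Q.b - x| ≤ 2 * z := by
    have := abs_sub_le Q.b Q.a x
    rw [abs_sub_comm Q.a x, abs_sub_comm Q.b Q.a] at this
    linarith
  have key : ∀ s : ℝ, |p| ≤ s * Q.A → |u + v * Q.r| * t ^ (2 * l + 1) ≤ K * w ^ l * s :=
    fun s hs => by
      have s0 : 0 ≤ s := nonneg_of_mul_nonneg_left ((abs_nonneg _).trans hs) hA'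
      calc _ ≤ Q.A ^ (2 * l) * (δ * (s * Q.A) * w ^ l) * t ^ (2 * l + 1) := by rw [X1]; gcongr
        _ = δ * H ^ (2 * l + 1) * w ^ l * s := by rw [ht]; ring
        _ ≤ _ := by gcongr
  by_cases v0 : v = 0
  · subst v0
    simp only [Int.cast_zero, zero_mul, add_zero, sub_zero] at hu hv X1 X2 key
    have u0 : u ≠ 0 := by
      rintro rfl
      exact mul_ne_zero (pow_pos hA' _).ne' (mul_ne_zero n3 (pow_ne_zero _
        (abs_pos.1 (zero_lt_one.trans_le w0)))) (hu.trans Int.cast_zero)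
    have rs : (Q.A : ℝ) ^ (2 * l) * (P.ev Q.a ^ l * P.ev Q.b ^ l) = 1 := by
      have := Q.res_eq P.toTr
      rw [res_symm, hr] at this
      rw [pow_mul, ← mul_pow, ← mul_pow, ← one_pow l]
      congr 1
      push_cast at this
      linarith
    have hS := lead Q (O := P.toTr) (by rw [res_symm, hr]) (S := R - Polynomial.C u * pol P.toTr ^ l)
      (fun h => n1 (by
        rw [sub_eq_zero.1 h]; simp [pol_ev, P.ev_eq, show l ≠ 0 by omega]))
      (by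
        simp only [map_sub, map_mul, map_pow, pol_ev, eq_intCast, map_intCast]
        linear_combination P.ev Q.a ^ l * hu - aeval Q.a R * rs)
      (by
        simp only [map_sub, map_mul, map_pow, pol_ev, eq_intCast, map_intCast]
        linear_combination P.ev Q.b ^ l * hv - aeval Q.b R * rs)
    rw [coeff_sub, coeff_C_mul] at hS
    push_cast at hS
    refine core0 (G := K * w ^ l * (2 * w ^ l / (z * Q.A))) (E := K * w ^ l * C * z) D0 hA'
      (Approx_one_le u0) (by positivity) ((abs_nonneg _).trans (Final_coeff (pol P.toTr ^ l) 0)) t1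
      ((key (2 * |(u : ℝ)| * w ^ l / (z * Q.A) + C * t * z) ?_).trans_eq (by ring))
      (hS.trans ((abs_sub _ _).trans (add_le_add (ht ▸ Final_coeff R _) ?_))) ?_ ?_ c5
    · have h1 : |q| ≤ 2 * |(u : ℝ)| * w ^ l / z := by
        rw [le_div_iff₀ z0]
        linarith only [mul_le_mul_of_nonneg_right y1 (abs_nonneg q), X2]
      have h2 := abs_add_le (p - q) q
      rw [sub_add_cancel] at h2
      have h3 : (2 * |(u : ℝ)| * w ^ l / (z * Q.A) + C * t * z) * Q.A =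
          2 * |(u : ℝ)| * w ^ l / z + C * H * z := by rw [ht]; field_simp
      linarith
    · rw [abs_mul]
      exact mul_le_mul_of_nonneg_left (Final_coeff _ _) (abs_nonneg _)
    · have h1 : 2 * (K * w ^ l * (2 * w ^ l / (z * Q.A))) * D ^ (2 * l + 1) =
          4 * K * w ^ l * w ^ l * D ^ (2 * l + 1) / (Q.A * z) := by field_simp; ring
      rw [h1, div_le_one (by positivity)]
      refine le_trans ?_ c4
      have := wl0.le.trans wl
      gcongr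
    · refine lt_of_le_of_lt ?_ c2
      gcongr
  · refine core1 (Z := Q.A * z) (X' := |u - v * Q.r|) hl w0 C0 (by positivity) D0.le (abs_nonneg _)
      (Approx_one_le v0) t1 ?_ ?_ ?_ (hd u v v0) (le_trans (by gcongr) c3) c1
    · refine le_of_mul_le_mul_right ?_ t0
      have := key (C * t) (by rw [ht] at b3; linarith)
      rw [pow_succ] at this
      linarith
    · rw [X2]
      calc _ ≤ 2 * z * (C * H) := by gcongr
        _ = _ := by rw [ht]; ring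
    · have h1 : (u + v * Q.r) - (u - v * Q.r) = v * (Q.A * (Q.a - Q.b)) := by
        unfold QF.r; ring
      have h2 := abs_sub (u + v * Q.r) (u - v * Q.r)
      rwa [h1, abs_mul, abs_mul, abs_of_pos hA'] at h2

theorem geo {A z κ W e z' f g : ℝ} (hA : 0 < A) (hz : 0 < z) (hW : 1 ≤ W) (hκ : κ * (A * z) = 8 * W)
    (hB : 256 * W ≤ A * z ^ 2) (hz1 : z ≤ 1 / 2) (he : e ≤ κ / 4) (lo : κ / 2 ≤ z')
    (hi : z' ≤ 12 * κ) (f1 : z' ≤ f + e) (f2 : f ≤ z' + e) (g1 : z ≤ f + g) (g2 : g ≤ f + z) :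
    e ≤ z' ∧ z' ≤ 1 / 2 ∧ 1 ≤ A * (z - e) ∧ W ≤ A * f * g ∧ A * f * g ≤ 208 * W := by
  have h0 : 0 < A * z := by positivity
  have h1 : 0 < κ := pos_of_mul_pos_left (a := κ) (b := A * z) (by nlinarith) h0.le
  have h2 : 32 * κ ≤ z := le_of_mul_le_mul_right (by nlinarith) h0
  have f0 : 0 < f := by linarith
  have g0 : 0 < g := by linarith
  have h3 : A * (κ / 4) * (z / 2) ≤ A * f * g := by gcongr <;> linarith
  have h4 : A * f * g ≤ A * (13 * κ) * (2 * z) := by gcongr <;> linarith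
  have h5 : A * (z / 2) ≤ A * (z - e) := by gcongr; linarith
  exact ⟨by linarith, by linarith, by nlinarith, by linarith, by linarith⟩

theorem pair {η K : ℝ} (hη : 0 < η) (hK : 0 ≤ K) {l : ℕ} (hl : 2 ≤ l) :
    ∀ᶠ W : ℝ in atTop, ∀ᶠ B : ℝ in atTop, ∀ P : QF, |P.a| < 1 / 2 → |P.a - P.b| ≤ 1 / 2 →
      B ≤ P.A * |P.a - P.b| ^ 2 → ∀ᶠ M : ℝ in atTop, ∀ Q,
        Near η (8 * W / (P.A * |P.a - P.b|)) M P Q → PairE K l P Q := by
  obtain ⟨C, hC⟩ : ∃ C : ℝ, C = (2 * l + 1) ^ 3 := ⟨_, rfl⟩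
  have C0 : 0 < C := by rw [hC]; positivity
  filter_upwards [eventually_ge_atTop 1, eventually_gt_atTop ((4 * C) ^ (2 * l) * (K * C) / η)]
    with W W1 W2
  filter_upwards [eventually_ge_atTop (256 * W),
    eventually_gt_atTop (2 ^ (2 * l + 1) * (K * (208 * W) ^ l * C * (96 * W)))] with B B1 B2
  intro P pa pz hB
  have hA := P.Apos
  have z0 : 0 < |P.a - P.b| := abs_pos.2 (sub_ne_zero.2 P.a_ne_b)
  obtain ⟨κ, hκ⟩ : ∃ κ, κ = 8 * W / (P.A * |P.a - P.b|) := ⟨_, rfl⟩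
  obtain ⟨D, hD⟩ : ∃ D, D = 2 * C * (P.A : ℝ) ^ (2 * l) := ⟨_, rfl⟩
  have κ0 : 0 < κ := by rw [hκ]; positivity
  have κ1 : κ * (P.A * |P.a - P.b|) = 8 * W := by rw [hκ]; field_simp
  rw [← hκ]
  filter_upwards [eventually_ge_atTop (4 / κ), eventually_ge_atTop (1 / (1 / 2 - |P.a|)),
    eventually_ge_atTop (D ^ (2 * l) * (K * C * (208 * W) ^ l) / (κ / 4)),
    eventually_ge_atTop (4 * K * (208 * W) ^ l * (208 * W) ^ l * D ^ (2 * l + 1) / (κ / 2)),
    eventually_ge_atTop (2 * (pol P.toTr ^ l).supNorm * D ^ (2 * l))] with M M1 M2 M3 M4 M5 Q hQ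
  rw [div_le_iff₀ (by linarith)] at M1 M2 M3 M4
  rw [div_lt_iff₀ hη] at W2
  have e0 := abs_nonneg (P.a - Q.a)
  have M0 : 0 < M := pos_of_mul_pos_left (a := M) (b := κ) (by nlinarith) κ0.le
  have e1 : |P.a - Q.a| ≤ κ / 4 := le_of_mul_le_mul_right (by linarith [hQ.close]) M0
  have e2 : |P.a - Q.a| ≤ 1 / 2 - |P.a| := le_of_mul_le_mul_right (by linarith [hQ.close]) M0
  obtain ⟨g1, g2, g3, g4, g5⟩ := geo (f := |Q.b - P.a|) (g := |Q.b - P.b|) hA z0 W1 κ1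
    (B1.trans hB) pz e1 hQ.lo hQ.hi
    (by rw [abs_sub_comm Q.a]; exact abs_sub_le _ _ _)
    (by rw [abs_sub_comm Q.a, abs_sub_comm P.a]; exact abs_sub_le _ _ _)
    (by rw [abs_sub_comm Q.b P.a]; exact abs_sub_le _ _ _)
    (by exact abs_sub_le _ _ _)
  have hw : |P.ev Q.b| = P.A * |Q.b - P.a| * |Q.b - P.b| := by
    rw [P.ev_eq, abs_mul, abs_mul, abs_of_pos hA]
  have qa : |Q.a| ≤ 1 / 2 := by linarith [abs_sub_abs_le_abs_sub Q.a P.a, abs_sub_comm Q.a P.a]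
  have hZ : M * (κ / 2) ≤ Q.A * |Q.a - Q.b| := mul_le_mul hQ.big hQ.lo (by linarith) Q.Apos.le
  refine pair_core (w₁ := 208 * W) hl hK hC hQ.res1 hQ.dio pa.le
    (by linarith [abs_sub_abs_le_abs_sub P.b P.a, abs_sub_comm P.b P.a]) qa
    (by linarith [abs_sub_abs_le_abs_sub Q.b Q.a, abs_sub_comm Q.b Q.a]) g1
    (g3.trans (mul_le_mul_of_nonneg_left (by linarith [abs_sub_le P.a Q.a P.b]) hA.le))
    (hw ▸ W1.trans g4) (hw ▸ g5) ?_ ?_ (hD ▸ by linarith) (hD ▸ by linarith)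
    (hD ▸ M5.trans hQ.big)
  · rw [hw]
    exact W2.trans_le (by rw [mul_comm]; gcongr)
  · have B0 : 0 < B := by linarith
    have h1 : |Q.a - Q.b| * B ≤ 96 * W := calc
      _ ≤ 12 * κ * (P.A * |P.a - P.b|) := mul_le_mul hQ.hi (hB.trans (by
          rw [sq, ← mul_assoc]
          exact mul_le_of_le_one_right (by positivity) (by linarith))) B0.le (by linarith)
      _ = _ := by linarith
    refine lt_of_mul_lt_mul_right ?_ B0.le
    calc _ = 2 ^ (2 * l + 1) * (K * (208 * W) ^ l * C * (|Q.a - Q.b| * B)) := by ring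
      _ ≤ 2 ^ (2 * l + 1) * (K * (208 * W) ^ l * C * (96 * W)) := by gcongr
      _ < _ := by linarith

end Pool.Agent.MP_06f5ad_nt.Ev
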