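import Pool.Agent.MP_06f5ad_nt.Ev.B

/-! Even degrees: the next quadratic. -/

namespace Pool.Agent.MP_06f5ad_nt.Ev

open Q2 Filter

/-- Inhomogeneous approximation in a window. -/
theorem window {ρ : ℝ} (hρ : BA ρ) : ∃ c G₀ : ℝ, 0 < c ∧ ∀ G, G₀ ≤ G → ∀ h θ : ℝ, ∃ j N : ℤ,
    G ≤ h + j * ρ ∧ h + j * ρ ≤ 2 * G ∧ |h + j * ρ - N - θ| * G ≤ c := by
  obtain ⟨c, hc, hρ⟩ := hρ
  have ρ0 : 0 < |ρ| := abs_pos.2 fun h => by
    have := hρ 1 0 one_ne_zero
    simp [h] at this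
    linarith
  refine ⟨(1 / c + 1) * (4 * |ρ|), 4 * |ρ|, by positivity, fun G hG h θ => ?_⟩
  obtain ⟨n, n0, n1, n2⟩ : ∃ n : ℕ, 0 < n ∧ (n + 1) * |ρ| ≤ G / 2 ∧ G ≤ (n + 1) * (4 * |ρ|) := by
    have h2 : 2 ≤ G / (2 * |ρ|) := by rw [le_div_iff₀ (by positivity)]; linarith
    have h3 := Nat.le_floor (n := 2) (by exact_mod_cast h2)
    have h4 := Nat.floor_le (zero_le_two.trans h2)
    have h5 := Nat.lt_floor_add_one (G / (2 * |ρ|))
    obtain ⟨n, hn⟩ := Nat.exists_eq_add_of_le' h3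
    rw [hn, le_div_iff₀ (by positivity)] at h4
    rw [hn, div_lt_iff₀ (by positivity)] at h5
    have : (0 : ℝ) ≤ n * |ρ| := by positivity
    push_cast at h4 h5
    exact ⟨n + 1, by omega, by push_cast; linarith, by push_cast; linarith⟩
  obtain ⟨q, q1, q2⟩ := Real.exists_rat_abs_sub_le_and_den_le ρ n0
  have d0 : (0 : ℝ) < q.den := by exact_mod_cast q.den_pos
  have d1 : (q.den : ℝ) ≤ n := by exact_mod_cast q2
  have d2 : |q.den * ρ - q.num| * (n + 1) ≤ 1 := by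
    have : q.den * ρ - q.num = q.den * (ρ - q) := by rw [Rat.cast_def]; field_simp
    rw [this, abs_mul, abs_of_pos d0]
    rw [le_div_iff₀ (by positivity)] at q1
    linarith
  have d3 : c * (n + 1) ≤ q.den := by
    have := hρ q.den (-q.num) (by exact_mod_cast q.den_ne_zero)
    rw [Int.cast_neg, Int.cast_natCast, ← sub_eq_add_neg, abs_of_pos d0] at this
    nlinarith [mul_le_mul_of_nonneg_right this (by positivity : (0 : ℝ) ≤ n + 1)]
  obtain ⟨j, hj⟩ : ∃ j : ℤ, |h + j * ρ - 3 * G / 2| ≤ |ρ| / 2 := by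
    refine ⟨round ((3 * G / 2 - h) / ρ), ?_⟩
    have h1 := abs_sub_round ((3 * G / 2 - h) / ρ)
    have h2 : h + round ((3 * G / 2 - h) / ρ) * ρ - 3 * G / 2 =
        -((3 * G / 2 - h) / ρ - round ((3 * G / 2 - h) / ρ)) * ρ := by
      have := abs_pos.1 ρ0
      field_simp
      ring
    rw [h2, abs_mul, abs_neg]
    nlinarith
  obtain ⟨a, b, hab⟩ := q.isCoprime_num_den
  obtain ⟨m, hm⟩ : ∃ m : ℤ, |q.den * (θ - (h + j * ρ)) - m| ≤ 1 / 2 := ⟨_, abs_sub_round _⟩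
  have dz : (0 : ℤ) < q.den := by exact_mod_cast q.den_pos
  obtain ⟨i, d, i0, i1, hi⟩ : ∃ i d : ℤ, 0 ≤ i ∧ i < q.den ∧ i + q.den * d = m * a :=
    ⟨_, _, Int.emod_nonneg _ dz.ne', Int.emod_lt_of_pos _ dz, Int.emod_add_mul_ediv _ _⟩
  have i0' : (0 : ℝ) ≤ i := by exact_mod_cast i0
  have i1' : (i : ℝ) ≤ q.den := by exact_mod_cast i1.le
  have hi' : (i : ℝ) * q.num = m - q.den * (m * b + d * q.num) := by
    have : i * q.num = m - q.den * (m * b + d * q.num) := by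
      linear_combination q.num * hi + m * hab
    exact_mod_cast this
  have w : |h + (j + i : ℤ) * ρ - 3 * G / 2| ≤ G / 2 := by
    have e : h + (j + i : ℤ) * ρ - 3 * G / 2 = (h + j * ρ - 3 * G / 2) + i * ρ := by
      push_cast; ring
    have := abs_add_le (h + j * ρ - 3 * G / 2) (i * ρ)
    rw [abs_mul, abs_of_nonneg i0'] at this
    rw [e]
    nlinarith
  refine ⟨j + i, -(m * b + d * q.num), by linarith [(abs_le.1 w).1], by linarith [(abs_le.1 w).2],
    ?_⟩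
  have e : q.den * (h + (j + i : ℤ) * ρ - (-(m * b + d * q.num) : ℤ) - θ) =
      i * (q.den * ρ - q.num) - (q.den * (θ - (h + j * ρ)) - m) := by
    push_cast; linear_combination hi'
  have e2 := abs_sub (i * (q.den * ρ - q.num)) (q.den * (θ - (h + j * ρ)) - m)
  rw [← e, abs_mul, abs_mul, abs_of_pos d0, abs_of_nonneg i0'] at e2
  generalize |h + (j + i : ℤ) * ρ - (-(m * b + d * q.num) : ℤ) - θ| = X at e2 ⊢
  have y0 := abs_nonneg (q.den * ρ - q.num)
  generalize |q.den * ρ - q.num| = Y at e2 d2 y0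
  have e3 : X * (n + 1) ≤ 1 / c + 1 := by
    refine le_of_mul_le_mul_left ?_ d0
    have a1 : (n + 1 : ℝ) ≤ q.den * (1 / c) := by
      rw [mul_one_div, le_div_iff₀ hc]; linarith
    have a2 : i * Y * (n + 1) ≤ q.den := by
      rw [mul_assoc]
      exact (mul_le_of_le_one_right i0' d2).trans i1'
    nlinarith [mul_le_mul_of_nonneg_right e2 (by positivity : (0 : ℝ) ≤ n + 1)]
  rcases le_total X 0 with x0 | x0
  · exact (mul_nonpos_of_nonpos_of_nonneg x0 (by linarith)).trans (by positivity)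
  · nlinarith [mul_le_mul_of_nonneg_left n2 x0]

theorem dio4 {θ c c₁ r : ℝ} {n N : ℤ} (hθ : ∀ q p : ℤ, q ≠ 0 → c ≤ |q * θ + p| * |(q : ℝ)|)
    (hc : 0 < c) (hn : ∀ k q : ℤ, k ^ 2 = n * q ^ 2 → q = 0) (hr : r ^ 2 = n) (r1 : 1 ≤ r)
    (h1 : |r - N - θ| * r ≤ c₁) (h2 : (2 * c₁ / c) ^ 3 ≤ r) : Dio4 r (min (c / 2) (1 / 3)) := by
  intro u v hv
  have V1 := Approx_one_le hv
  have X0 := abs_nonneg (u + v * r)
  have c0 : 0 ≤ c₁ := le_trans (by positivity) h1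
  rcases le_total r (|(v : ℝ)| ^ 3) with h | h
  · refine (min_le_right _ _).trans ?_
    have a1 : (1 : ℝ) ≤ |u + v * r| * |u - v * r| := by
      have h0 : u ^ 2 - n * v ^ 2 ≠ 0 := fun e => hv (hn u v (by linarith))
      have h3 := Approx_one_le h0
      push_cast at h3
      rwa [← hr, show (u : ℝ) ^ 2 - r ^ 2 * v ^ 2 = (u + v * r) * (u - v * r) by ring,
        abs_mul] at h3
    have a2 : |u - v * r| ≤ |u + v * r| + 2 * (|(v : ℝ)| * r) := by
      have := abs_sub (u + v * r) (2 * (v * r))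
      rwa [show u + v * r - 2 * (v * r) = u - v * r by ring, abs_mul 2, abs_mul, abs_two,
        abs_of_pos (by linarith : 0 < r)] at this
    have a3 : |(v : ℝ)| * r ≤ |(v : ℝ)| ^ 4 := by
      rw [pow_succ' _ 3]; exact mul_le_mul_of_nonneg_left h (abs_nonneg _)
    have a4 : 1 ≤ |(v : ℝ)| ^ 4 := one_le_pow₀ V1
    rcases le_total 1 |u + v * r| with a5 | a5
    · nlinarith
    · nlinarith [mul_le_mul_of_nonneg_left (a2.trans (by linarith :
        _ ≤ 3 * |(v : ℝ)| ^ 4)) X0]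
  · refine (min_le_left _ _).trans ?_
    have a1 := hθ v (u + v * N) hv
    have a2 : |v * θ + (u + v * N : ℤ)| ≤ |u + v * r| + |(v : ℝ)| * |r - N - θ| := by
      have := abs_sub (u + v * r) (v * (r - N - θ))
      rwa [abs_mul, show u + v * r - v * (r - N - θ) = v * θ + (u + v * N : ℤ) by
        push_cast; ring] at this
    have a3 : 2 * c₁ / c * |(v : ℝ)| ^ 2 ≤ r := by
      rcases le_total (2 * c₁ / c) |(v : ℝ)| with a | a
      · exact le_trans (by rw [pow_succ' _ 2]; gcongr) h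
      · exact le_trans (by rw [pow_succ' _ 2]; gcongr) h2
    rw [div_mul_eq_mul_div, div_le_iff₀ hc] at a3
    have a4 : |(v : ℝ)| ^ 2 * |r - N - θ| ≤ c / 2 := by
      refine le_of_mul_le_mul_right ?_ (by linarith : 0 < r)
      nlinarith [mul_le_mul_of_nonneg_left h1 (sq_nonneg |(v : ℝ)|)]
    have a5 : |u + v * r| * |(v : ℝ)| ≤ |u + v * r| * |(v : ℝ)| ^ 4 :=
      mul_le_mul_of_nonneg_left (le_self_pow₀ V1 (by norm_num)) X0
    nlinarith [mul_le_mul_of_nonneg_right a2 (abs_nonneg (v : ℝ))]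

theorem St_ev (P : QF) (O : Tr) (e U V k : ℤ) :
    (St P.toTr O e U V k).ev P.a = e * (U - 2 * V * P.r) * O.ev P.a ∧
      (St P.toTr O e U V k).ev P.b = e * (U + 2 * V * P.r) * O.ev P.b := by
  unfold St Tr.ev QF.r
  push_cast
  rw [P.B_eq, P.C_eq]
  constructor <;> ring

theorem sizes {s Y y h A κ : ℝ} (e : A * s ^ 2 + 2 * h * s + y = Y * s ^ 2) (hy : |y| * Y ≤ 1 / 4)
    (h1 : κ * Y ≤ h) (h2 : h ≤ 2 * (κ * Y)) (hκ : 16 * κ ≤ |s|) (κ0 : 0 < κ) (hY : 1 ≤ κ * Y) :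
    Y / 2 ≤ A ∧ A ≤ 3 * Y / 2 ∧ |A * y| ≤ 3 / 8 := by
  have Y0 : 0 < Y := pos_of_mul_pos_right (a := κ) (b := Y) (by linarith) κ0.le
  have s0 : 0 < |s| := by linarith
  have a1 : 16 ≤ Y * |s| := by nlinarith
  have a2 : |A - Y| * |s| ^ 2 ≤ 2 * h * |s| + |y| := by
    have := abs_add_le (2 * h * s) y
    rwa [show 2 * h * s + y = -((A - Y) * s ^ 2) by linarith, abs_neg, abs_mul, abs_pow, abs_mul,
      abs_of_pos (by linarith : 0 < 2 * h)] at this
  have a3 : |y| ≤ Y * |s| ^ 2 / 4 := le_of_mul_le_mul_right (by nlinarith) Y0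
  have a4 : 2 * h * |s| ≤ Y * |s| ^ 2 / 4 := by
    nlinarith [mul_le_mul_of_nonneg_right h2 s0.le, mul_le_mul_of_nonneg_left hκ (mul_pos Y0 s0).le]
  have a5 : |A - Y| ≤ Y / 2 := le_of_mul_le_mul_right (by linarith) (pow_pos s0 2)
  obtain ⟨a6, a7⟩ := abs_le.1 a5
  refine ⟨by linarith, by linarith, ?_⟩
  rw [abs_mul, abs_of_pos (by linarith : 0 < A)]
  nlinarith [abs_nonneg y]

theorem step {θ c : ℝ} (hθ : ∀ q p : ℤ, q ≠ 0 → c ≤ |q * θ + p| * |(q : ℝ)|) (hc : 0 < c) (P : QF)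
    {O : Tr} (hO : O.NS) (hr : res P.toTr O = 1) {κ : ℝ} (κ0 : 0 < κ) (hκ : 16 * κ ≤ |P.a - P.b|)
    (M : ℝ) : ∃ Q : QF, Near (min (c / 2) (1 / 3)) κ M P Q := by
  have hA := P.Apos
  obtain ⟨c₁, G₀, c1, hw⟩ := window (ρ := 5 * P.r) (by
    obtain ⟨c₀, h0, h⟩ := P.ba_a
    refine ⟨c₀ / (5 * P.A), by positivity, fun q p hq => ?_⟩
    have := h (q * (5 * P.A)) (5 * q * P.B + p) (mul_ne_zero hq (by have := P.pos; omega))
    push_cast at this
    rw [abs_mul (q : ℝ), abs_of_pos (by positivity : (0 : ℝ) < 5 * P.A)] at this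
    rwa [div_le_iff₀ (by positivity), ← P.r_a, mul_assoc, show q * (5 * (P.A * P.a + P.B)) + p =
      q * (5 * P.A) * P.a + (5 * q * P.B + p) by ring])
  obtain ⟨ε, U, V, ε1, hU⟩ := pell P (M := 10) (by norm_num)
  have rr := P.res_eq O
  rw [hr, Int.cast_one] at rr
  have ob : O.ev P.b ≠ 0 := fun h => by simp [h] at rr
  obtain ⟨e, e1, e2⟩ : ∃ e : ℤ, e ^ 2 = 1 ∧ 0 < e * O.ev P.b := by
    rcases lt_or_gt_of_ne ob with h | h
    · exact ⟨-1, by norm_num, by simpa using h⟩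
    · exact ⟨1, by norm_num, by simpa using h⟩
  have s0 : 0 < (P.b - P.a) ^ 2 := sq_pos_of_ne_zero (sub_ne_zero.2 P.a_ne_b.symm)
  have hT : Tendsto (fun k : ℕ => ε ^ k * (e * O.ev P.b / (P.b - P.a) ^ 2)) atTop atTop :=
    (tendsto_pow_atTop_atTop_of_one_lt ε1).atTop_mul_const (by positivity)
  have hT' := hT.const_mul_atTop κ0
  obtain ⟨k, ⟨⟨k1, k2⟩, k3⟩, k4⟩ := ((((hT'.eventually_ge_atTop G₀).and
    (hT'.eventually_ge_atTop 2)).and (hT'.eventually_ge_atTop (2 * (2 * (3 * c₁ + 1) / c) ^ 3))).and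
    (hT.eventually_ge_atTop (2 * M))).exists
  obtain ⟨u1, ⟨v, hv⟩, u3⟩ := hU k
  rw [hv] at u1 u3
  generalize U k = u at u1 u3
  generalize hY : ε ^ k * (e * O.ev P.b / (P.b - P.a) ^ 2) = Y at k1 k2 k3 k4
  obtain ⟨j, N, j1, j2, j3⟩ := hw _ k1
    ((St P.toTr O e u (5 * v) 0).A * P.a + (St P.toTr O e u (5 * v) 0).B) θ
  obtain ⟨S, hS⟩ : ∃ S, S = St P.toTr O e u (5 * v) (5 * (j * e)) := ⟨_, rfl⟩
  have e1' : (e : ℝ) ^ 2 = 1 := by exact_mod_cast e1
  have hh : (St P.toTr O e u (5 * v) 0).A * P.a + (St P.toTr O e u (5 * v) 0).B + j * (5 * P.r) =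
      S.A * P.a + S.B := by
    rw [hS, ← P.r_a]
    unfold St
    push_cast
    linear_combination -(5 * j * (P.A * P.a + P.B)) * e1'
  rw [hh] at j1 j2 j3
  obtain ⟨ya, yb⟩ := St_ev P O e u (5 * v) (5 * (j * e))
  rw [← hS] at ya yb
  have u1' : (u : ℝ) ^ 2 - P.r ^ 2 * (10 * v) ^ 2 = 1 := by rw [P.r_sq]; exact_mod_cast u1
  push_cast at u3 ya yb
  have yY : S.ev P.b = Y * (P.b - P.a) ^ 2 := by
    rw [yb, ← hY, ← u3, mul_assoc _ _ (_ ^ 2), div_mul_cancel₀ _ s0.ne']; ring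
  have Y0 : 0 < Y := pos_of_mul_pos_right (a := κ) (b := Y) (by linarith) κ0.le
  have yy : |S.ev P.a| * Y ≤ 1 / 4 := by
    have h1 : S.ev P.a * Y * (4 * P.n) = 1 := by
      rw [P.n_eq]
      have : S.ev P.a * S.ev P.b * P.A ^ 2 = 1 := by
        rw [ya, yb]
        linear_combination (P.A * O.ev P.a * (P.A * O.ev P.b)) * (e ^ 2 * u1' + e1') - rr
      rw [yY] at this
      linear_combination this
    have h2 := congrArg abs h1
    have h3 := P.one_le_n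
    rw [abs_mul, abs_mul, abs_of_pos Y0, abs_of_pos (by linarith : (0 : ℝ) < 4 * P.n),
      abs_one] at h2
    linarith only [h2, le_mul_of_one_le_right (mul_nonneg (abs_nonneg (S.ev P.a)) Y0.le) h3]
  obtain ⟨z1, z2, z3⟩ := sizes (s := P.b - P.a) (A := S.A) (by rw [← yY]; unfold Tr.ev; ring) yy j1 j2
    (by rwa [abs_sub_comm]) κ0 (by linarith)
  have hn : (S.n : ℝ) = (S.A * P.a + S.B) ^ 2 - S.A * S.ev P.a := by
    unfold Tr.n Tr.ev; push_cast; ring
  generalize hh' : S.A * P.a + S.B = h at j1 j2 j3 hn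
  have A0 : (0 : ℝ) < S.A := by linarith
  obtain ⟨z4, z5⟩ := abs_le.1 z3
  obtain ⟨r, r0, hr2⟩ : ∃ r : ℝ, 0 ≤ r ∧ r ^ 2 = S.n :=
    ⟨√S.n, Real.sqrt_nonneg _, Real.sq_sqrt (by
      linarith only [hn, z5, one_le_pow₀ (n := 2) (k2.trans' one_le_two |>.trans j1)])⟩
  have t1 : |r - h| * (r + h) ≤ 3 / 8 := by
    rwa [← abs_of_pos (by linarith : 0 < r + h), ← abs_mul,
      show (r - h) * (r + h) = -(S.A * S.ev P.a) by linarith, abs_neg]
  have t0 := abs_nonneg (r - h)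
  have t2 : |r - h| ≤ 1 := by
    linarith only [t1, le_mul_of_one_le_right t0 (by linarith only [r0, j1, k2] : 1 ≤ r + h)]
  obtain ⟨t3, t4⟩ := abs_le.1 t2
  have ns : S.NS := hS ▸ St_ns hO e1 (by linear_combination u1) (dvd_mul_right _ _)
    (dvd_mul_right _ _)
  let Q : QF :=
    { S with
      a := (-S.B + r) / S.A
      b := (-S.B - r) / S.A
      pos := by exact_mod_cast A0
      sum := by field_simp; ring
      prod := by
        unfold Tr.n at hr2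
        push_cast at hr2
        field_simp
        linarith
      ns := ns }
  have q1 : |Q.a - Q.b| * S.A = 2 * r := by
    rw [show Q.a - Q.b = 2 * r / S.A by simp only [Q]; ring, abs_of_nonneg (by positivity),
      div_mul_cancel₀ _ A0.ne']
  have q2 : |P.a - Q.a| * S.A = |r - h| := by
    rw [← abs_of_pos A0, ← abs_mul, abs_sub_comm r, ← hh']
    congr 1
    simp only [Q]
    field_simp
    ring
  have q3 : Q.r = r := by simp only [Q, QF.r]; field_simp; ring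
  refine ⟨Q, ?_, by change M ≤ S.A; linarith, ?_, le_of_mul_le_mul_right ?_ A0,
    le_of_mul_le_mul_right ?_ A0, q3 ▸ dio4 (N := N) (c₁ := 3 * c₁ + 1) hθ hc
      (fun _ _ => ns.sq) hr2 (by linarith) ?_ (by linarith)⟩
  · change res P.toTr S = 1
    rw [hS, St_res, e1, hr]
    linear_combination u1
  · exact (mul_le_mul_of_nonneg_left (by linarith) (abs_nonneg _)).trans (q2.trans_le t2)
  · linarith only [q1, mul_le_mul_of_nonneg_left z2 κ0.le, t3, j1, k2]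
  · linarith only [q1, mul_le_mul_of_nonneg_left z1 κ0.le, t4, j2, k2]
  · have := abs_add_le (r - h) (h - N - θ)
    rw [show r - h + (h - N - θ) = r - N - θ by ring] at this
    linarith only [mul_le_mul_of_nonneg_right this r0, t1, j3,
      mul_nonneg t0 (by linarith only [j1, k2] : 0 ≤ h), mul_le_mul_of_nonneg_left
        (by linarith only [t4, j2, k2] : r ≤ 3 * (κ * Y)) (abs_nonneg (h - N - θ))]

end Pool.Agent.MP_06f5ad_nt.Ev
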