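import Pool.Agent.MP_06f5ad_nt.Ev.C

/-! Even degrees: the sequence and the limit. -/

namespace Pool.Agent.MP_06f5ad_nt.Ev

open Q2 Polynomial Filter Topology

theorem exists_seq : ∃ P : ℕ → QF,
    (∀ m l : ℕ, 2 ≤ l → l ≤ m → PairE m l (P m) (P (m + 1))) ∧
    (∀ m, 0 < |(P m).a - (P (m + 1)).a|) ∧
    (∀ m, |(P (m + 1)).a - (P (m + 2)).a| ≤ |(P m).a - (P (m + 1)).a| / 8) ∧
    (∀ m, |(P m).a - (P (m + 1)).a| * ((P m).A : ℝ) ^ m ≤ 1 / (m + 1)) ∧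
    (∀ m, 4 * |(P m).a - (P (m + 1)).a| ≤ |(P m).a - (P m).b|) ∧
    ∀ m, |(P (m + 1)).a - (P (m + 1)).b| ≤ |(P m).a - (P m).b| / 2 := by
  obtain ⟨c, hc, hθ⟩ := Step_P.ba_a
  have hη : 0 < min (c / 2) (1 / 3) := by positivity
  have h1 : ∀ m : ℕ, ∃ W B : ℝ, 0 < W ∧ 256 * W ≤ B ∧ ∀ P : QF, |P.a| < 1 / 2 →
      |P.a - P.b| ≤ 1 / 2 → B ≤ P.A * |P.a - P.b| ^ 2 → ∀ᶠ M : ℝ in atTop, ∀ Q,
        Near (min (c / 2) (1 / 3)) (8 * W / (P.A * |P.a - P.b|)) M P Q →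
          ∀ l ∈ Finset.Icc 2 m, PairE m l P Q := fun m => by
    obtain ⟨W, W0, hW⟩ := ((eventually_gt_atTop 0).and ((eventually_all_finset (Finset.Icc 2 m)).2
      fun l hl => pair hη (Nat.cast_nonneg m) (Finset.mem_Icc.1 hl).1)).exists
    obtain ⟨B, B0, hB⟩ := ((eventually_ge_atTop (256 * W)).and
      ((eventually_all_finset _).2 hW)).exists
    exact ⟨W, B, W0, B0, fun P h1 h2 h3 => ((eventually_all_finset _).2
      fun l hl => hB l hl P h1 h2 h3).mono fun M hM Q hQ l hl => hM l hl Q hQ⟩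
  choose W B W0 B0 hP using h1
  have st : ∀ (P : QF) (O : Tr), O.NS → res P.toTr O = 1 → |P.a| < 1 / 2 → ∀ κ E B' : ℝ, 0 < κ →
      32 * κ ≤ |P.a - P.b| → 0 < E → ∀ p : ℝ → Prop, (∀ᶠ M in atTop, p M) → ∃ (Q : QF) (M : ℝ),
        p M ∧ Near (min (c / 2) (1 / 3)) κ M P Q ∧ |Q.a| < 1 / 2 ∧
        |Q.a - Q.b| ≤ |P.a - P.b| / 2 ∧ B' ≤ Q.A * |Q.a - Q.b| ^ 2 ∧ 0 < |P.a - Q.a| ∧
        |P.a - Q.a| ≤ E := fun P O hO hr pa κ E B' κ0 hκ E0 p hp => by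
    obtain ⟨M, ⟨⟨⟨M1, M2⟩, M3⟩, M4⟩, M0⟩ := ((((hp.and (eventually_ge_atTop (1 / E))).and
      (eventually_gt_atTop (1 / (1 / 2 - |P.a|)))).and
      (eventually_ge_atTop (B' / (κ / 2) ^ 2))).and (eventually_gt_atTop 0)).exists
    obtain ⟨Q, hQ⟩ := step hθ hc P hO hr κ0 (by linarith) M
    rw [div_le_iff₀ (by positivity)] at M2 M4
    rw [div_lt_iff₀ (by linarith)] at M3
    have e2 : |P.a - Q.a| < 1 / 2 - |P.a| := lt_of_mul_lt_mul_right (by linarith [hQ.close]) M0.le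
    refine ⟨Q, M, M1, hQ, by linarith [abs_sub_abs_le_abs_sub Q.a P.a, abs_sub_comm Q.a P.a],
      by linarith [hQ.hi], M4.trans (mul_le_mul hQ.big (pow_le_pow_left₀ (by linarith) hQ.lo 2)
        (by positivity) Q.Apos.le), abs_pos.2 fun h => ?_,
      le_of_mul_le_mul_right (by linarith [hQ.close]) M0⟩
    have := Q.res_eq P.toTr
    rw [res_symm, hQ.res1, P.ev_eq Q.a, ← sub_eq_zero.1 h] at this
    simp at this
  let I : ℕ → QF × ℝ → Prop := fun m x => (∃ O : Tr, O.NS ∧ res x.1.toTr O = 1) ∧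
    |x.1.a| < 1 / 2 ∧ |x.1.a - x.1.b| ≤ 1 / 2 ∧ B m ≤ x.1.A * |x.1.a - x.1.b| ^ 2 ∧ 0 < x.2
  have h0 : ∃ x, I 0 x := by
    obtain ⟨W₀, P, O, h⟩ := Q2.init
    have ab := StepA_abs h
    have z0 : 0 < |P.a - P.b| := abs_pos.2 (sub_ne_zero.2 P.a_ne_b)
    have : (0 : ℝ) ≤ 1 / W₀ := by positivity
    obtain ⟨Q, M, -, q1, q2, q3, q4, -⟩ := st P O h.nsO h.res1 (by linarith [h.loc])
      (|P.a - P.b| / 32) 1 (B 0) (by positivity) (by linarith) one_pos (fun _ => True)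
      (Eventually.of_forall fun _ => trivial)
    exact ⟨(Q, 1), ⟨P.toTr, P.ns, res_symm _ _ ▸ q1.res1⟩, q2,
      q3.trans (by linarith [abs_sub P.a P.b]), q4, one_pos⟩
  have key : ∀ (m : ℕ) (x : QF × ℝ), I m x → ∃ y : QF × ℝ, I (m + 1) y ∧
      y.2 = |x.1.a - y.1.a| ∧ y.2 ≤ x.2 / 8 ∧ y.2 * (x.1.A : ℝ) ^ m ≤ 1 / (m + 1) ∧
      4 * y.2 ≤ |x.1.a - x.1.b| ∧ |y.1.a - y.1.b| ≤ |x.1.a - x.1.b| / 2 ∧
      ∀ l ∈ Finset.Icc 2 m, PairE m l x.1 y.1 := by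
    rintro m ⟨P, η⟩ ⟨⟨O, hO, hr⟩, pa, pz, hB, η0⟩
    dsimp only at *
    have hA : (0 : ℝ) < (P.A : ℝ) ^ m := pow_pos P.Apos m
    have z0 : 0 < |P.a - P.b| := abs_pos.2 (sub_ne_zero.2 P.a_ne_b)
    have := W0 m
    have := P.Apos
    obtain ⟨Q, M, q0, q1, q2, q3, q4, q5, q6⟩ := st P O hO hr pa (8 * W m / (P.A * |P.a - P.b|))
      (min (η / 8) (min (1 / (m + 1) / (P.A : ℝ) ^ m) (|P.a - P.b| / 4))) (B (m + 1))
      (by positivity) (by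
        rw [← mul_div_assoc, div_le_iff₀ (by positivity)]
        linarith [B0 m]) (by positivity) _ (hP m P pa pz hB)
    simp only [le_min_iff] at q6
    exact ⟨(Q, |P.a - Q.a|), ⟨⟨P.toTr, P.ns, res_symm _ _ ▸ q1.res1⟩, q2, q3.trans (by linarith),
      q4, q5⟩, rfl, q6.1, (le_div_iff₀ hA).1 q6.2.1, by dsimp only; linarith [q6.2.2], q3, q0 Q q1⟩
  choose f hf using key
  obtain ⟨x0, hx0⟩ := h0
  let x : ∀ m : ℕ, {x : QF × ℝ // I m x} := fun m =>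
    Nat.rec (motive := fun m => {x : QF × ℝ // I m x}) ⟨x0, hx0⟩
      (fun m y => ⟨f m y.1 y.2, (hf m y.1 y.2).1⟩) m
  have hx : ∀ m, (x (m + 1)).1.2 = |(x m).1.1.a - (x (m + 1)).1.1.a| ∧
      (x (m + 1)).1.2 ≤ (x m).1.2 / 8 ∧
      (x (m + 1)).1.2 * ((x m).1.1.A : ℝ) ^ m ≤ 1 / (m + 1) ∧
      4 * (x (m + 1)).1.2 ≤ |(x m).1.1.a - (x m).1.1.b| ∧
      |(x (m + 1)).1.1.a - (x (m + 1)).1.1.b| ≤ |(x m).1.1.a - (x m).1.1.b| / 2 ∧
      ∀ l ∈ Finset.Icc 2 m, PairE m l (x m).1.1 (x (m + 1)).1.1 :=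
    fun m => (hf m (x m).1 (x m).2).2
  refine ⟨fun m => (x m).1.1, fun m l h1 h2 => (hx m).2.2.2.2.2 l (Finset.mem_Icc.2 ⟨h1, h2⟩),
    fun m => ?_, fun m => ?_, fun m => ?_, fun m => ?_, fun m => (hx m).2.2.2.2.1⟩
  · rw [← (hx m).1]; exact (x (m + 1)).2.2.2.2.2
  · rw [← (hx m).1, ← (hx (m + 1)).1]; exact (hx (m + 1)).2.1
  · rw [← (hx m).1]; exact (hx m).2.2.1
  · rw [← (hx m).1]; exact (hx m).2.2.2.1

theorem finite_deg {n : ℕ} (hn : n ≠ 0) (B : ℝ) : Set.Finite {α : ℝ | ∃ R : ℤ[X],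
    R.natDegree = n ∧ aeval α R = 0 ∧ R.supNorm ≤ B} := by
  classical
  refine (bUnion_roots_finite (algebraMap ℤ ℝ) n (Set.finite_Icc (-⌈B⌉) ⌈B⌉)).subset ?_
  rintro α ⟨R, h3, hα, hB⟩
  have hR0 : R ≠ 0 := by
    rintro rfl
    exact hn (by simpa using h3.symm)
  simp only [Set.mem_iUnion]
  refine ⟨R, ⟨h3.le, fun i => ?_⟩, ?_⟩
  · have h1 := (Final_coeff R i).trans (hB.trans (Int.le_ceil B))
    rw [← Int.cast_abs, Int.cast_le] at h1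
    exact abs_le.mp h1
  · rw [Finset.mem_coe, Multiset.mem_toFinset, mem_roots_map_of_injective
      (algebraMap ℤ ℝ).injective_int hR0]
    exact hα

theorem even_counter : ∃ ζ : ℝ, Transcendental ℚ ζ ∧ ∀ n : ℕ, Even n → 4 ≤ n → ∀ c : ℝ, 0 < c →
    Set.Finite {α : ℝ | ∃ R : ℤ[X], Irreducible R ∧ R.natDegree = n ∧ 0 < R.leadingCoeff ∧
      aeval α R = 0 ∧ |ζ - α| ≤ c / R.supNorm ^ (n + 1)} := by
  obtain ⟨P, hP, hpos, hdec, hsm, hab, hb⟩ := exists_seq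
  obtain ⟨ζ, hζ, hlim⟩ := exists_lim (a := fun m => (P m).a) hdec
  have hη0 : Tendsto (fun m : ℕ => |(P m).a - (P (m + 1)).a|) atTop (𝓝 0) :=
    squeeze_zero (fun _ => abs_nonneg _) (fun m => (le_mul_of_one_le_right (abs_nonneg _)
      (one_le_pow₀ (P m).one_le_A)).trans (hsm m)) tendsto_one_div_add_atTop_nhds_zero_nat
  refine ⟨ζ, transc hζ ?_ (fun m hm => ?_) (fun m hm => ?_) fun m => ?_, ?_⟩
  · have h0 : ∀ m, |(P m).a - (P m).b| ≤ |(P 0).a - (P 0).b| * (1 / 2) ^ m := fun m => by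
      induction m with
      | zero => simp
      | succ m ih => rw [pow_succ]; linarith [hb m]
    have h1 : Tendsto (fun m => (P m).a - (P m).b) atTop (𝓝 0) :=
      (tendsto_zero_iff_abs_tendsto_zero _).mpr (squeeze_zero (fun _ => abs_nonneg _) h0 (by
        simpa using (tendsto_pow_atTop_nhds_zero_of_lt_one (r := (1 / 2 : ℝ)) (by norm_num)
          (by norm_num)).const_mul |(P 0).a - (P 0).b|))
    simpa using hζ.sub h1
  · have h1 := (hlim m).2.2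
    rw [← hm, sub_self, abs_zero] at h1
    linarith [hpos m]
  · have h1 := (hlim m).2.1
    rw [← hm, abs_sub_comm] at h1
    linarith [hpos m, hab m]
  · have h3 : (0 : ℝ) ≤ ((P m).A : ℝ) ^ m := (pow_pos (P m).Apos m).le
    have := mul_le_mul_of_nonneg_right (hlim m).2.1 h3
    have h4 : (2 : ℝ) / (m + 1) = 2 * (1 / (m + 1)) := by ring
    linarith [hsm m]
  rintro n ⟨l, rfl⟩ hn c hc
  rw [← two_mul] at hn ⊢
  obtain ⟨m₀, m1, m2⟩ : ∃ m₀ : ℕ, l ≤ m₀ ∧ 9 * c ≤ m₀ :=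
    ⟨max l ⌈9 * c⌉₊, le_max_left _ _, Nat.ceil_le.1 (le_max_right _ _)⟩
  refine (finite_deg (n := 2 * l) (by omega) (4 * c / |(P m₀).a - (P (m₀ + 1)).a|)).subset ?_
  rintro α ⟨R, hR, h3, hl, hα, hclose⟩
  refine ⟨R, h3, hα, ?_⟩
  have hX1 : (1 : ℝ) ≤ R.supNorm := (Approx_one_le hl.ne').trans (Final_coeff R R.natDegree)
  have h1 : R.supNorm ≤ R.supNorm ^ (2 * l + 1) := le_self_pow₀ hX1 (by omega)
  have hP' := fun m hm => hP m l (by omega) hm R α hR h3 hα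
  generalize R.supNorm ^ (2 * l + 1) = X at h1 hP' hclose
  have X0 : 0 < X := by linarith
  by_cases hcase : X * |(P m₀).a - (P (m₀ + 1)).a| < 4 * c
  · rw [le_div_iff₀ (hpos m₀)]
    linarith [mul_le_mul_of_nonneg_right h1 (hpos m₀).le]
  exfalso
  have hev : ∀ᶠ m : ℕ in atTop, X * |(P m).a - (P (m + 1)).a| < 4 * c := by
    have h1 := hη0.const_mul X
    rw [mul_zero] at h1
    exact h1.eventually_lt_const (by linarith)
  obtain ⟨m, hm, hlo, hhi⟩ := Final_cross (p := fun m => X * |(P m).a - (P (m + 1)).a| < 4 * c)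
    m₀ hcase ((eventually_ge_atTop m₀).and hev).exists
  have hhi' : X * |(P (m + 1)).a - (P (m + 2)).a| < 4 * c := hhi
  have htri := abs_sub_le α ζ (P (m + 1)).a
  rw [abs_sub_comm α ζ] at htri
  rw [le_div_iff₀ X0] at hclose
  have h5 : |ζ - α| ≤ |(P m).a - (P (m + 1)).a| / 4 :=
    le_of_mul_le_mul_right (by linarith [not_lt.1 hlo]) X0
  have h2 := (hlim m).1
  have h6 := hP' m (m1.trans hm) (by linarith [hdec m])
  have h7 : (m₀ : ℝ) ≤ m := by exact_mod_cast hm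
  linarith [mul_le_mul_of_nonneg_right (htri.trans (add_le_add le_rfl h2)) X0.le]

end Pool.Agent.MP_06f5ad_nt.Ev
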